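import Pool.Agent.H73.CBE.Stmts

/-! Board `cbe`, row PRX. -/

set_option autoImplicit false

namespace Pool.CBE

open Finset

theorem PRX_thm : PRXStmt := by
  classical
  intro n r g t P hP ι _ c i0 hc
  have hc0 : c i0 ≠ 0 := by
    intro h
    rw [h, norm_zero] at hc
    norm_num at hc
  have hP' : ∀ b : E n, (((univ.filter (fun i : Fin r => ‖g i - b‖ < 2 * t)).card : ℕ) : ℝ) ≤
      P * r := by
    intro b
    have := hP b
    rw [Nat.card_eq_fintype_card, Fintype.card_subtype] at this
    exact this
  rw [Nat.card_eq_fintype_card, Fintype.card_subtype]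
  set S : Finset (ι → Fin r) := univ.filter (fun w => ‖∑ i, c i • g (w i)‖ < t) with hS
  let res : (ι → Fin r) → ({j : ι // j ≠ i0} → Fin r) := fun w j => w j
  have h1 : S.card = ∑ v : {j : ι // j ≠ i0} → Fin r, (S.filter (fun w => res w = v)).card :=
    Finset.card_eq_sum_card_fiberwise (fun w _ => Finset.mem_coe.2 (mem_univ _))
  have h2 : ∀ v : {j : ι // j ≠ i0} → Fin r,
      ((((S.filter (fun w => res w = v)).card : ℕ)) : ℝ) ≤ P * r := by
    intro v
    let a : E n := ∑ j : {j : ι // j ≠ i0}, c j • g (v j)
    refine le_trans ?_ (hP' (-((c i0)⁻¹ • a)))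
    have hinj : (S.filter (fun w => res w = v)).card ≤
        (univ.filter (fun i : Fin r => ‖g i - -((c i0)⁻¹ • a)‖ < 2 * t)).card := by
      apply Finset.card_le_card_of_injOn (fun w => w i0)
      · intro w hw
        have hw' := Finset.mem_filter.1 (Finset.mem_coe.1 hw)
        have hw1 := (Finset.mem_filter.1 hw'.1).2
        have hw2 := hw'.2
        apply Finset.mem_coe.2
        rw [Finset.mem_filter]
        refine ⟨mem_univ _, ?_⟩
        have hsum : ∑ i, c i • g (w i) = c i0 • g (w i0) + a := by
          rw [← Finset.add_sum_erase univ _ (mem_univ i0)]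
          congr 1
          have : a = ∑ j : {j : ι // j ≠ i0}, c j • g (w j) := by
            apply Finset.sum_congr rfl
            intro j _
            rw [← hw2]
          rw [this]
          rw [← Finset.sum_subtype (univ.erase i0) (fun x => by simp)
            (fun j => c j • g (w j))]
        rw [hsum] at hw1
        have heq : g (w i0) - -((c i0)⁻¹ • a) = (c i0)⁻¹ • (c i0 • g (w i0) + a) := by
          rw [smul_add, smul_smul, inv_mul_cancel₀ hc0, one_smul, sub_neg_eq_add]
        rw [heq, norm_smul, norm_inv]
        have hpos : 0 < ‖c i0‖ := norm_pos_iff.2 hc0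
        rw [inv_mul_lt_iff₀ hpos]
        have ht : 0 < t := lt_of_le_of_lt (norm_nonneg _) hw1
        calc ‖c i0 • g (w i0) + a‖ < t := hw1
          _ = (1 / 2) * (2 * t) := by ring
          _ ≤ ‖c i0‖ * (2 * t) := by
            apply mul_le_mul_of_nonneg_right hc
            positivity
      · intro w hw w' hw' h
        have hr := (Finset.mem_filter.1 (Finset.mem_coe.1 hw)).2
        have hr' := (Finset.mem_filter.1 (Finset.mem_coe.1 hw')).2
        funext j
        by_cases hj : j = i0
        · subst hj; exact h
        · have := congrFun (hr.trans hr'.symm) ⟨j, hj⟩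
          exact this
    exact_mod_cast hinj
  have h3 : ((S.card : ℕ) : ℝ) ≤ ∑ _v : {j : ι // j ≠ i0} → Fin r, P * r := by
    rw [h1]
    push_cast
    exact Finset.sum_le_sum (fun v _ => h2 v)
  refine h3.trans (le_of_eq ?_)
  rw [Finset.sum_const, Finset.card_univ, Fintype.card_fun, Fintype.card_fin, nsmul_eq_mul]
  have hcard : Fintype.card {j : ι // j ≠ i0} + 1 = Fintype.card ι := by
    have h4 := Fintype.card_subtype_compl (fun j : ι => j = i0)
    rw [Fintype.card_subtype_eq] at h4
    have h5 : 0 < Fintype.card ι := Fintype.card_pos_iff.2 ⟨i0⟩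
    have h6 : Fintype.card {j : ι // j ≠ i0} = Fintype.card {x : ι // ¬ x = i0} := rfl
    rw [h6, h4]
    omega
  rw [← hcard, pow_succ]
  push_cast
  ring

end Pool.CBE
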